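import Mathlib

open Set Filter Topology MeasureTheory

namespace Pool.Agent.Results.MP_a30120_gt.NonEdgeLoop

/-- Euclidean three-space. -/
abbrev E3 := EuclideanSpace ℝ (Fin 3)

/-- The surface of the tetrahedron with vertices `P 0, P 1, P 2, P 3`:
the topological boundary of their convex hull. -/
def surface (P : Fin 4 → E3) : Set E3 := frontier (convexHull ℝ (range P))

/-- The space of directions of a set `S` at the point `p`: all unit vectors `d` such that
the straight segment issuing from `p` in the direction `d` starts inside `S`.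
For the surface of a tetrahedron and `p` on it, this is a closed curve on the unit sphere whose
length is the total surface angle at `p`. -/
def dirs (S : Set E3) (p : E3) : Set E3 :=
  {d | ‖d‖ = 1 ∧ ∀ᶠ t in 𝓝[>] (0 : ℝ), p + t • d ∈ S}

/-- `d` is the forward direction of the curve `γ` at time `t`. -/
def HasForwardDir (γ : ℝ → E3) (t : ℝ) (d : E3) : Prop :=
  Tendsto (fun s => ‖γ s - γ t‖⁻¹ • (γ s - γ t)) (𝓝[>] t) (𝓝 d)

/-- `d` is the backward direction of the curve `γ` at time `t`. -/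
def HasBackwardDir (γ : ℝ → E3) (t : ℝ) (d : E3) : Prop :=
  Tendsto (fun s => ‖γ s - γ t‖⁻¹ • (γ s - γ t)) (𝓝[<] t) (𝓝 d)

/-- The two directions `d₁, d₂` cut the space of directions of `S` at `p` into sectors
(the connected components of what is left after removing `d₁` and `d₂`); this says that
the angle of each sector, i.e. its length (one-dimensional Hausdorff measure), is at most `π`. -/
def SectorAnglesLE (S : Set E3) (p d₁ d₂ : E3) : Prop :=
  ∀ x ∈ dirs S p \ {d₁, d₂},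
    μH[1] (connectedComponentIn (dirs S p \ {d₁, d₂}) x) ≤ ENNReal.ofReal Real.pi

/-- `γ` (a curve parametrised with period `L`) is a simple closed quasigeodesic on the surface of
the tetrahedron with vertices `P`. -/
def IsSimpleClosedQuasigeodesic (P : Fin 4 → E3) (L : ℝ) (γ : ℝ → E3) : Prop :=
  0 < L ∧ Continuous γ ∧ Function.Periodic γ L ∧ InjOn γ (Ico 0 L) ∧
    (∀ t, γ t ∈ surface P) ∧
    ∀ t, ∃ d₁ ∈ dirs (surface P) (γ t), ∃ d₂ ∈ dirs (surface P) (γ t),
      HasBackwardDir γ t d₁ ∧ HasForwardDir γ t d₂ ∧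
        SectorAnglesLE (surface P) (γ t) d₁ d₂

/-! ### Arcs on the unit sphere -/

lemma inner_sum_formula (w e n d : E3) (hw : ‖w‖ = 1) (he : ‖e‖ = 1) (hn : ‖n‖ = 1)
    (hwe : inner ℝ w e = 0) (hwn : inner ℝ w n = 0) (hen : inner ℝ e n = 0)
    (hwd : inner ℝ w d = 0) :
    d = (inner ℝ e d) • e + (inner ℝ n d) • n := by
  have hew : inner ℝ e w = 0 := by rw [real_inner_comm]; exact hwe
  have hnw : inner ℝ n w = 0 := by rw [real_inner_comm]; exact hwn
  have hne : inner ℝ n e = 0 := by rw [real_inner_comm]; exact hen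
  have ho : Orthonormal ℝ ![w, e, n] := by
    constructor
    · intro i
      fin_cases i <;> simp [hw, he, hn]
    · intro i j hij
      fin_cases i <;> fin_cases j <;> simp_all
  have hcard : Fintype.card (Fin 3) = Module.finrank ℝ E3 := by simp
  let b := (basisOfOrthonormalOfCardEqFinrank ho hcard)
  have hb : (b : Fin 3 → E3) = ![w, e, n] := coe_basisOfOrthonormalOfCardEqFinrank ho hcard
  have hob : Orthonormal ℝ b := by rw [hb]; exact ho
  let ob := b.toOrthonormalBasis hob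
  have hobb : (ob : Fin 3 → E3) = ![w, e, n] := by
    rw [← hb]; exact Module.Basis.coe_toOrthonormalBasis _ _
  have := ob.sum_repr' d
  rw [Fin.sum_univ_three] at this
  simp only [hobb] at this
  simp [hwd] at this
  exact this.symm

/-- arc parametrisation -/
noncomputable def arc (e n : E3) (s : ℝ) : E3 := Real.cos s • e + Real.sin s • n

lemma arc_lip (e n : E3) (he : ‖e‖ = 1) (hn : ‖n‖ = 1) (hen : inner ℝ e n = 0) :
    LipschitzWith 1 (arc e n) := by
  apply LipschitzWith.of_dist_le_mul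
  intro s t
  rw [dist_eq_norm, dist_eq_norm]
  simp only [NNReal.coe_one, one_mul]
  have h1 : ‖arc e n s - arc e n t‖ ^ 2 ≤ ‖s - t‖ ^ 2 := by
    have h2 : arc e n s - arc e n t
        = (Real.cos s - Real.cos t) • e + (Real.sin s - Real.sin t) • n := by
      unfold arc; module
    rw [h2, @norm_add_sq_real, norm_smul, norm_smul, inner_smul_left, inner_smul_right, hen, he, hn]
    simp only [mul_one, mul_zero, add_zero, Real.norm_eq_abs, sq_abs]
    have h3 : (Real.cos s - Real.cos t) ^ 2 + (Real.sin s - Real.sin t) ^ 2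
        = 2 - 2 * Real.cos (s - t) := by
      rw [Real.cos_sub]
      have := Real.sin_sq_add_cos_sq s
      have := Real.sin_sq_add_cos_sq t
      nlinarith
    rw [h3]
    have h4 := Real.one_sub_sq_div_two_le_cos (x := s - t)
    nlinarith
  exact le_of_sq_le_sq h1 (norm_nonneg _)

lemma arc_measure (e n : E3) (he : ‖e‖ = 1) (hn : ‖n‖ = 1) (hen : inner ℝ e n = 0) (a b : ℝ) :
    μH[1] (arc e n '' Icc a b) ≤ ENNReal.ofReal (b - a) := by
  have h := (arc_lip e n he hn hen).hausdorffMeasure_image_le (d := 1) (by norm_num) (Icc a b)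
  refine h.trans ?_
  simp [hausdorffMeasure_real]

lemma sector_param (w e n d : E3) (hw : ‖w‖ = 1) (he : ‖e‖ = 1) (hn : ‖n‖ = 1)
    (hwe : inner ℝ w e = 0) (hwn : inner ℝ w n = 0) (hen : inner ℝ e n = 0)
    (hwd : inner ℝ w d = 0) (hd : ‖d‖ = 1) (hnd : 0 ≤ inner ℝ n d) :
    ∃ s ∈ Icc 0 Real.pi, d = arc e n s ∧ Real.cos s = inner ℝ e d ∧
      Real.sin s = inner ℝ n d := by
  have hf := inner_sum_formula w e n d hw he hn hwe hwn hen hwd
  set x := inner ℝ e d with hx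
  set y := inner ℝ n d with hy
  have hxy : x ^ 2 + y ^ 2 = 1 := by
    have h1 : ‖d‖ ^ 2 = x ^ 2 + y ^ 2 := by
      rw [hf, @norm_add_sq_real, norm_smul, norm_smul, inner_smul_left, inner_smul_right, hen, he,
        hn]
      simp
    rw [← h1, hd]; norm_num
  have hx1 : -1 ≤ x := by nlinarith
  have hx2 : x ≤ 1 := by nlinarith
  refine ⟨Real.arccos x, ⟨Real.arccos_nonneg x, Real.arccos_le_pi x⟩, ?_, ?_, ?_⟩
  · unfold arc
    rw [Real.cos_arccos hx1 hx2, Real.sin_arccos, show 1 - x ^ 2 = y ^ 2 by linarith,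
      Real.sqrt_sq hnd]
    exact hf
  · exact Real.cos_arccos hx1 hx2
  · rw [Real.sin_arccos, show 1 - x ^ 2 = y ^ 2 by linarith, Real.sqrt_sq hnd]


/-! ### The regular tetrahedron -/

/-- vertices of a regular tetrahedron -/
noncomputable def V : Fin 4 → E3 := ![!₂[1, 1, 1], !₂[1, -1, -1], !₂[-1, 1, -1], !₂[-1, -1, 1]]

lemma inner_V (i j : Fin 4) : inner ℝ (V i) (V j) = if i = j then (3 : ℝ) else -1 := by
  fin_cases i <;> fin_cases j <;>
    simp [V, PiLp.inner_apply, EuclideanSpace.norm_sq_eq, Fin.sum_univ_three] <;> norm_num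

lemma sum_V : V 0 + V 1 + V 2 + V 3 = 0 := by
  ext i
  fin_cases i <;> simp [V]

/-- barycentric coordinates (times four) -/
noncomputable def g (i : Fin 4) (x : E3) : ℝ := 1 + inner ℝ (V i) x

lemma g_cont (i : Fin 4) : Continuous (g i) := by
  unfold g; fun_prop

lemma g_line (i : Fin 4) (x d : E3) (t : ℝ) : g i (x + t • d) = g i x + t * inner ℝ (V i) d := by
  unfold g; rw [inner_add_right, inner_smul_right]; ring

lemma frame (x : E3) :
    (g 0 x / 4) • V 0 + (g 1 x / 4) • V 1 + (g 2 x / 4) • V 2 + (g 3 x / 4) • V 3 = x := by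
  ext i
  fin_cases i <;> simp [g, V, PiLp.inner_apply, Fin.sum_univ_three] <;> ring

lemma g_sum (x : E3) : g 0 x + g 1 x + g 2 x + g 3 x = 4 := by
  have : inner ℝ (V 0) x + inner ℝ (V 1) x + inner ℝ (V 2) x + inner ℝ (V 3) x = 0 := by
    rw [← inner_add_left, ← inner_add_left, ← inner_add_left, sum_V, inner_zero_left]
  unfold g; linarith

/-- The solid tetrahedron. -/
def C : Set E3 := {x | ∀ i, 0 ≤ g i x}

lemma hull_eq : convexHull ℝ (range V) = C := by
  apply Subset.antisymm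
  · apply convexHull_min
    · rintro _ ⟨j, rfl⟩ i
      unfold g
      rw [inner_V]
      split_ifs <;> norm_num
    · intro x hx y hy a b ha hb hab i
      have : g i (a • x + b • y) = a * g i x + b * g i y := by
        unfold g
        rw [inner_add_right, inner_smul_right, inner_smul_right]
        linear_combination -hab
      rw [this]
      have := hx i
      have := hy i
      positivity
  · intro x hx
    rw [← frame x]
    have hc : Convex ℝ (convexHull ℝ (range V)) := convex_convexHull ℝ _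
    have hV : ∀ i ∈ (Finset.univ : Finset (Fin 4)), V i ∈ convexHull ℝ (range V) :=
      fun i _ => subset_convexHull ℝ _ (mem_range_self i)
    have := hc.sum_mem (t := Finset.univ) (w := fun i => g i x / 4) (z := V)
      (fun i _ => div_nonneg (hx i) (by norm_num))
      (by rw [Fin.sum_univ_four]; have := g_sum x; linarith) hV
    rw [Fin.sum_univ_four] at this
    exact this

lemma C_closed : IsClosed C := by
  have : C = ⋂ i, {x | 0 ≤ g i x} := by ext x; simp [C]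
  rw [this]
  exact isClosed_iInter fun i => isClosed_le continuous_const (g_cont i)

lemma C_interior : interior C = {x | ∀ i, 0 < g i x} := by
  apply Subset.antisymm
  · intro x hx i
    have hx' : x ∈ C := interior_subset hx
    rcases (hx' i).lt_or_eq with h | h
    · exact h
    · exfalso
      have h1 : ∀ᶠ t in 𝓝 (0 : ℝ), x + t • V i ∈ C := by
        have hcont : Tendsto (fun t : ℝ => x + t • V i) (𝓝 0) (𝓝 (x + (0 : ℝ) • V i)) := by
          apply Continuous.tendsto; fun_prop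
        rw [zero_smul, add_zero] at hcont
        exact hcont.eventually (mem_interior_iff_mem_nhds.mp hx)
      obtain ⟨ε, hε, hb⟩ := Metric.eventually_nhds_iff.mp h1
      have h2 := hb (y := -(ε / 2)) (by
        rw [Real.dist_eq]; rw [sub_zero, abs_neg, abs_of_pos (by positivity)]; linarith)
      have h3 := h2 i
      rw [g_line, ← h, inner_V] at h3
      simp at h3
      linarith
  · apply interior_maximal
    · intro x hx i; exact (hx i).le
    · have : {x | ∀ i, 0 < g i x} = ⋂ i, {x | 0 < g i x} := by ext x; simp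
      rw [this]
      exact isOpen_iInter_of_finite fun i => isOpen_lt continuous_const (g_cont i)

lemma surface_eq : surface V = {x | (∀ i, 0 ≤ g i x) ∧ ∃ i, g i x = 0} := by
  unfold surface
  rw [hull_eq, C_closed.frontier_eq, C_interior]
  ext x
  constructor
  · rintro ⟨h1, h2⟩
    refine ⟨h1, ?_⟩
    by_contra h3
    push Not at h3
    exact h2 fun i => lt_of_le_of_ne (h1 i) (h3 i).symm
  · rintro ⟨h1, i, h2⟩
    refine ⟨h1, fun h3 => ?_⟩
    have := h3 i
    linarith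

lemma mem_dirs {p d : E3} (hp : p ∈ surface V) :
    d ∈ dirs (surface V) p ↔ ‖d‖ = 1 ∧ (∀ i, g i p = 0 → 0 ≤ inner ℝ (V i) d) ∧
      ∃ i, g i p = 0 ∧ inner ℝ (V i) d = 0 := by
  rw [surface_eq] at hp ⊢
  obtain ⟨hp1, hp2⟩ := hp
  have hsmall : ∀ᶠ t in 𝓝[>] (0 : ℝ), ∀ i, 0 < g i p → 0 < g i p + t * inner ℝ (V i) d := by
    rw [eventually_all]
    intro i
    by_cases h : 0 < g i p
    · have hcont : Tendsto (fun t : ℝ => g i p + t * inner ℝ (V i) d) (𝓝 0)
          (𝓝 (g i p + 0 * inner ℝ (V i) d)) := by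
        apply Continuous.tendsto; fun_prop
      rw [zero_mul, add_zero] at hcont
      have h1 := (hcont.mono_left nhdsWithin_le_nhds).eventually_const_lt
        (u := 0) (f := fun t : ℝ => g i p + t * inner ℝ (V i) d) (v := g i p)
        (l := 𝓝[>] (0 : ℝ)) h
      filter_upwards [h1] with t ht _ using ht
    · exact Eventually.of_forall fun t h' => absurd h' h
  have hpos : ∀ᶠ t in 𝓝[>] (0 : ℝ), 0 < t := eventually_mem_nhdsWithin
  constructor
  · rintro ⟨h1, h2⟩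
    refine ⟨h1, ?_⟩
    obtain ⟨t, ⟨ht1, ht2⟩, ht3, ht4⟩ := (h2.and (hpos.and hsmall)).exists
    simp only [g_line] at ht1 ht2
    refine ⟨fun i hi => ?_, ?_⟩
    · have := ht1 i
      rw [hi, zero_add] at this
      exact nonneg_of_mul_nonneg_right this ht3
    · obtain ⟨i, hi⟩ := ht2
      have h5 : g i p = 0 := by
        by_contra h6
        have := ht4 i (lt_of_le_of_ne (hp1 i) (Ne.symm h6))
        linarith
      refine ⟨i, h5, ?_⟩
      rw [h5, zero_add] at hi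
      rcases mul_eq_zero.mp hi with h | h
      · linarith
      · exact h
  · rintro ⟨h1, h2, i, hi1, hi2⟩
    refine ⟨h1, ?_⟩
    filter_upwards [hpos, hsmall] with t ht1 ht2
    simp only [g_line]
    refine ⟨fun j => ?_, i, ?_⟩
    · rcases (hp1 j).lt_or_eq with h | h
      · exact (ht2 j h).le
      · rw [← h, zero_add]
        exact mul_nonneg ht1.le (h2 j h.symm)
    · rw [hi1, hi2]; ring


/-! ### Sector angles -/

lemma comp_subset (K : Set E3) (f : E3 → ℝ) (hf : Continuous f)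
    (h0 : ∀ x ∈ K, f x ≠ 0) (x : E3) (hx : x ∈ K) :
    connectedComponentIn K x ⊆ {y | y ∈ K ∧ 0 < f y * f x} := by
  intro y hy
  have hyK : y ∈ K := connectedComponentIn_subset K x hy
  refine ⟨hyK, ?_⟩
  have hpc : IsPreconnected (connectedComponentIn K x) := isPreconnected_connectedComponentIn
  have hxx : x ∈ connectedComponentIn K x := mem_connectedComponentIn hx
  by_contra hneg
  have h1 : f y * f x < 0 := lt_of_le_of_ne (not_lt.mp hneg) (mul_ne_zero (h0 y hyK) (h0 x hx))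
  have himg : IsPreconnected ((fun z => f z * f x) '' connectedComponentIn K x) :=
    hpc.image _ (by fun_prop)
  have h2 : (0 : ℝ) ∈ (fun z => f z * f x) '' connectedComponentIn K x := by
    have hord := himg.ordConnected
    exact hord.out (mem_image_of_mem _ hy) (mem_image_of_mem _ hxx)
      ⟨h1.le, mul_self_nonneg _⟩
  obtain ⟨z, hz, hz0⟩ := h2
  have hzK : z ∈ K := connectedComponentIn_subset K x hz
  exact mul_ne_zero (h0 z hzK) (h0 x hx) hz0

lemma sector_of_functional (K : Set E3) (f : E3 → ℝ) (hf : Continuous f)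
    (h0 : ∀ x ∈ K, f x ≠ 0)
    (hpos : μH[1] {y | y ∈ K ∧ 0 < f y} ≤ ENNReal.ofReal Real.pi)
    (hneg : μH[1] {y | y ∈ K ∧ f y < 0} ≤ ENNReal.ofReal Real.pi) (x : E3) (hx : x ∈ K) :
    μH[1] (connectedComponentIn K x) ≤ ENNReal.ofReal Real.pi := by
  have h := comp_subset K f hf h0 x hx
  rcases lt_or_gt_of_ne (h0 x hx) with h1 | h1
  · refine (measure_mono (h.trans ?_)).trans hneg
    rintro y ⟨hy1, hy2⟩
    refine ⟨hy1, ?_⟩
    by_contra h3
    exact absurd hy2 (not_lt.mpr (mul_nonpos_of_nonneg_of_nonpos (not_lt.mp h3) h1.le))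
  · refine (measure_mono (h.trans ?_)).trans hpos
    rintro y ⟨hy1, hy2⟩
    exact ⟨hy1, (pos_iff_pos_of_mul_pos hy2 |>.mpr h1)⟩


lemma exists_third (w d : E3) (hw : ‖w‖ = 1) (hd : ‖d‖ = 1) (hwd : inner ℝ w d = 0) :
    ∃ n : E3, ‖n‖ = 1 ∧ inner ℝ w n = 0 ∧ inner ℝ d n = 0 := by
  have hw2 : ‖w‖ ^ 2 = 1 := by rw [hw]; norm_num
  have hd2 : ‖d‖ ^ 2 = 1 := by rw [hd]; norm_num
  rw [EuclideanSpace.norm_sq_eq, Fin.sum_univ_three] at hw2 hd2
  simp only [Real.norm_eq_abs, sq_abs] at hw2 hd2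
  rw [PiLp.inner_apply, Fin.sum_univ_three] at hwd
  simp only [RCLike.inner_apply, conj_trivial] at hwd
  refine ⟨!₂[w 1 * d 2 - w 2 * d 1, w 2 * d 0 - w 0 * d 2, w 0 * d 1 - w 1 * d 0], ?_, ?_, ?_⟩
  · have : ‖(!₂[w 1 * d 2 - w 2 * d 1, w 2 * d 0 - w 0 * d 2, w 0 * d 1 - w 1 * d 0] : E3)‖ ^ 2
        = 1 := by
      rw [EuclideanSpace.norm_sq_eq, Fin.sum_univ_three]
      simp only [Real.norm_eq_abs, sq_abs]
      simp
      linear_combination (d 0 ^ 2 + d 1 ^ 2 + d 2 ^ 2) * hw2 + hd2 -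
        (d 0 * w 0 + d 1 * w 1 + d 2 * w 2) * hwd
    have h0 := norm_nonneg
      (!₂[w 1 * d 2 - w 2 * d 1, w 2 * d 0 - w 0 * d 2, w 0 * d 1 - w 1 * d 0] : E3)
    nlinarith
  · rw [PiLp.inner_apply, Fin.sum_univ_three]
    simp
    ring
  · rw [PiLp.inner_apply, Fin.sum_univ_three]
    simp
    ring

lemma norm_sV (i : Fin 4) : ‖(1 / √3) • V i‖ = 1 := by
  have h1 : ‖V i‖ ^ 2 = 3 := by rw [← real_inner_self_eq_norm_sq, inner_V]; simp
  have h2 : ‖V i‖ = √3 := by
    rw [← h1, Real.sqrt_sq (norm_nonneg _)]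
  rw [norm_smul, h2, Real.norm_eq_abs, abs_of_pos (by positivity)]
  field_simp

lemma face_case {p : E3} (hp : p ∈ surface V) (i : Fin 4)
    (hj : ∀ j, g j p = 0 → j = i) (d : E3) (hd : ‖d‖ = 1)
    (hid : inner ℝ (V i) d = 0) : SectorAnglesLE (surface V) p (-d) d := by
  have hw : inner ℝ ((1 / √3) • V i) d = 0 := by rw [inner_smul_left, hid, mul_zero]
  obtain ⟨n, hn1, hn2, hn3⟩ := exists_third ((1 / √3) • V i) d (norm_sV i) hd hw
  have hK : ∀ y ∈ dirs (surface V) p, ‖y‖ = 1 ∧ inner ℝ ((1 / √3) • V i) y = 0 := by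
    intro y hy
    rw [mem_dirs hp] at hy
    obtain ⟨h1, _, k, hk1, hk2⟩ := hy
    rw [hj k hk1] at hk2
    exact ⟨h1, by rw [inner_smul_left, hk2, mul_zero]⟩
  intro x hx
  refine sector_of_functional _ (fun y => inner ℝ n y) (by fun_prop) ?_ ?_ ?_ x hx
  · rintro y ⟨hy1, hy2⟩ h0
    obtain ⟨h1, h2⟩ := hK y hy1
    have hf := inner_sum_formula _ d n y (norm_sV i) hd hn1 hw hn2 hn3 h2
    rw [h0, zero_smul, add_zero] at hf
    have h3 : |inner ℝ d y| = 1 := by
      have : ‖y‖ = ‖(inner ℝ d y) • d‖ := congrArg norm hf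
      rw [norm_smul, hd, mul_one, h1, Real.norm_eq_abs] at this
      exact this.symm
    apply hy2
    rcases (abs_eq zero_le_one).mp h3 with h | h
    · right
      rw [hf, h, one_smul]; rfl
    · left
      rw [hf, h, neg_one_smul]
  · have hsub : {y | y ∈ dirs (surface V) p \ {-d, d} ∧ 0 < inner ℝ n y}
        ⊆ arc d n '' Icc 0 Real.pi := by
      rintro y ⟨⟨hy1, _⟩, hy3⟩
      obtain ⟨h1, h2⟩ := hK y hy1
      obtain ⟨s, hs, h3, -, -⟩ := sector_param _ d n y (norm_sV i) hd hn1 hw hn2 hn3 h2 h1 hy3.le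
      exact ⟨s, hs, h3.symm⟩
    refine (measure_mono hsub).trans ?_
    have := arc_measure d n hd hn1 hn3 0 Real.pi
    rwa [sub_zero] at this
  · have hsub : {y | y ∈ dirs (surface V) p \ {-d, d} ∧ inner ℝ n y < 0}
        ⊆ arc d (-n) '' Icc 0 Real.pi := by
      rintro y ⟨⟨hy1, _⟩, hy3⟩
      obtain ⟨h1, h2⟩ := hK y hy1
      obtain ⟨s, hs, h3, -, -⟩ := sector_param _ d (-n) y (norm_sV i) hd (by rw [norm_neg, hn1]) hw
        (by rw [inner_neg_right, hn2, neg_zero]) (by rw [inner_neg_right, hn3, neg_zero]) h2 h1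
        (by rw [inner_neg_left]; linarith)
      exact ⟨s, hs, h3.symm⟩
    refine (measure_mono hsub).trans ?_
    have := arc_measure d (-n) hd (by rw [norm_neg, hn1])
      (by rw [inner_neg_right, hn3, neg_zero]) 0 Real.pi
    rwa [sub_zero] at this


/-- unit normal of an edge inside the face with normal `V i` -/
noncomputable def nu (i j : Fin 4) : E3 := (1 / (2 * √6)) • ((3 : ℝ) • V j + V i)

lemma nu_norm (i j : Fin 4) (hij : i ≠ j) : ‖nu i j‖ = 1 := by
  have h1 : ‖(3 : ℝ) • V j + V i‖ ^ 2 = 24 := by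
    rw [← real_inner_self_eq_norm_sq, inner_add_left, inner_add_right, inner_add_right]
    simp only [inner_smul_left, inner_smul_right, inner_V, conj_trivial]
    simp [hij, hij.symm]
    norm_num
  have h2 : ‖(3 : ℝ) • V j + V i‖ = 2 * √6 := by
    have h3 : (2 * √6) ^ 2 = 24 := by
      rw [mul_pow, Real.sq_sqrt (by norm_num)]; norm_num
    have h4 : (0 : ℝ) ≤ 2 * √6 := by positivity
    rw [← h3] at h1
    exact (pow_left_inj₀ (norm_nonneg _) h4 two_ne_zero).mp h1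
  unfold nu
  rw [norm_smul, h2, Real.norm_eq_abs, abs_of_pos (by positivity)]
  field_simp

lemma inner_nu (i j : Fin 4) (y : E3) :
    inner ℝ (nu i j) y = (1 / (2 * √6)) * (3 * inner ℝ (V j) y + inner ℝ (V i) y) := by
  unfold nu
  rw [inner_smul_left, inner_add_left, inner_smul_left]
  simp

/-- parametrisation of one half of the space of directions at an edge point -/
lemma half_param (i j : Fin 4) (hij : i ≠ j) (e : E3) (he : ‖e‖ = 1)
    (hie : inner ℝ (V i) e = 0) (hje : inner ℝ (V j) e = 0) (y : E3) (hy : ‖y‖ = 1)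
    (hiy : inner ℝ (V i) y = 0) (hjy : 0 ≤ inner ℝ (V j) y) :
    ∃ s ∈ Icc 0 Real.pi, y = arc e (nu i j) s ∧ Real.cos s = inner ℝ e y ∧
      Real.sin s = (3 / (2 * √6)) * inner ℝ (V j) y := by
  have h1 : inner ℝ (V i) (nu i j) = 0 := by
    rw [real_inner_comm, inner_nu, inner_V, inner_V]; simp [hij.symm]
  have h2 : inner ℝ e (nu i j) = 0 := by
    rw [real_inner_comm, inner_nu, hje, hie]; ring
  have h3 : inner ℝ (nu i j) y = (3 / (2 * √6)) * inner ℝ (V j) y := by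
    rw [inner_nu, hiy]; ring
  obtain ⟨s, hs, h4, h5, h6⟩ := sector_param ((1 / √3) • V i) e (nu i j) y (norm_sV i) he
    (nu_norm i j hij) (by rw [inner_smul_left, hie, mul_zero])
    (by rw [inner_smul_left, h1, mul_zero]) h2 (by rw [inner_smul_left, hiy, mul_zero]) hy
    (by rw [h3]; positivity)
  exact ⟨s, hs, h4, h5, by rw [h6, h3]⟩

lemma edge_case {p : E3} (hp : p ∈ surface V) (i j : Fin 4) (hij : i ≠ j)
    (hk : ∀ k, g k p = 0 → k = i ∨ k = j)
    (hgi : g i p = 0) (hgj : g j p = 0) (e : E3) (he : ‖e‖ = 1)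
    (hie : inner ℝ (V i) e = 0) (hje : inner ℝ (V j) e = 0)
    (d₁ d₂ : E3) (hd₁ : ‖d₁‖ = 1) (hd₂ : ‖d₂‖ = 1)
    (h1i : inner ℝ (V i) d₁ = 0) (h1j : 0 < inner ℝ (V j) d₁)
    (h2j : inner ℝ (V j) d₂ = 0) (h2i : 0 < inner ℝ (V i) d₂)
    (hst : inner ℝ e d₁ + inner ℝ e d₂ = 0) : SectorAnglesLE (surface V) p d₁ d₂ := by
  have hpi := Real.pi_pos
  have hc0 : (0 : ℝ) < 3 / (2 * √6) := by positivity
  obtain ⟨φ, hφ, hφ1, hφ2, hφ3⟩ := half_param i j hij e he hie hje d₁ hd₁ h1i h1j.le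
  obtain ⟨ψ, hψ, hψ1, hψ2, hψ3⟩ := half_param j i hij.symm e he hje hie d₂ hd₂ h2j h2i.le
  have hsinφ : 0 < Real.sin φ := by rw [hφ3]; positivity
  have hsinψ : 0 < Real.sin ψ := by rw [hψ3]; positivity
  have hψφ : ψ = Real.pi - φ := by
    apply Real.injOn_cos hψ ⟨by linarith [hφ.2], by linarith [hφ.1]⟩
    rw [Real.cos_pi_sub, hφ2, hψ2]; linarith
  have hφ0 : 0 < φ := by
    rcases hφ.1.lt_or_eq with h | h
    · exact h
    · rw [← h, Real.sin_zero] at hsinφ; exact absurd hsinφ (lt_irrefl _)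
  have hφπ : φ < Real.pi := by
    rcases hφ.2.lt_or_eq with h | h
    · exact h
    · rw [h, Real.sin_pi] at hsinφ; exact absurd hsinφ (lt_irrefl _)
  have hψ0 : 0 < ψ := by linarith
  have hψπ : ψ < Real.pi := by linarith
  have hsinψφ : Real.sin ψ = Real.sin φ := by rw [hψφ, Real.sin_pi_sub]
  have hcosψφ : Real.cos ψ = -Real.cos φ := by rw [hψφ, Real.cos_pi_sub]
  -- the separating functional
  let f : E3 → ℝ := fun y => Real.sin φ * inner ℝ e y
    - Real.cos φ * ((3 / (2 * √6)) * (inner ℝ (V j) y - inner ℝ (V i) y))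
  have hf : Continuous f := by fun_prop
  have hcases : ∀ y ∈ dirs (surface V) p,
      (∃ s ∈ Icc 0 Real.pi, y = arc e (nu i j) s ∧ f y = Real.sin (φ - s)) ∨
      (∃ s ∈ Icc 0 Real.pi, y = arc e (nu j i) s ∧ f y = Real.sin (ψ - s)) := by
    intro y hy
    rw [mem_dirs hp] at hy
    obtain ⟨h1, h2, k, hk1, hk2⟩ := hy
    rcases hk k hk1 with rfl | rfl
    · left
      obtain ⟨s, hs, h3, h4, h5⟩ := half_param k j hij e he hie hje y h1 hk2 (h2 j hgj)
      refine ⟨s, hs, h3, ?_⟩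
      simp only [f]
      rw [hk2, sub_zero, ← h5, ← h4, Real.sin_sub]
    · right
      obtain ⟨s, hs, h3, h4, h5⟩ := half_param k i hij.symm e he hje hie y h1 hk2 (h2 i hgi)
      refine ⟨s, hs, h3, ?_⟩
      simp only [f]
      rw [hk2, zero_sub, mul_neg, ← h5, ← h4, Real.sin_sub, hsinψφ, hcosψφ]
      ring
  have hsin_zero : ∀ a s : ℝ, 0 < a → a < Real.pi → s ∈ Icc 0 Real.pi →
      Real.sin (a - s) = 0 → s = a := by
    intro a s ha1 ha2 hs h0
    have := (Real.sin_eq_zero_iff_of_lt_of_lt (x := a - s) (by linarith [hs.2])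
      (by linarith [hs.1])).mp h0
    linarith
  have hsin_pos : ∀ a s : ℝ, 0 < a → a < Real.pi → s ∈ Icc 0 Real.pi →
      0 < Real.sin (a - s) → s ≤ a := by
    intro a s ha1 ha2 hs h0
    by_contra hlt
    push Not at hlt
    have := Real.sin_neg_of_neg_of_neg_pi_lt (x := a - s) (by linarith) (by linarith [hs.2])
    linarith
  have hsin_neg : ∀ a s : ℝ, 0 < a → a < Real.pi → s ∈ Icc 0 Real.pi →
      Real.sin (a - s) < 0 → a ≤ s := by
    intro a s ha1 ha2 hs h0
    by_contra hlt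
    push Not at hlt
    have := Real.sin_nonneg_of_nonneg_of_le_pi (x := a - s) (by linarith) (by linarith [hs.1])
    linarith
  have hmeas : ∀ a b a' b' : ℝ, a ≤ b → a' ≤ b' → (b - a) + (b' - a') = Real.pi →
      μH[1] (arc e (nu i j) '' Icc a b ∪ arc e (nu j i) '' Icc a' b')
        ≤ ENNReal.ofReal Real.pi := by
    intro a b a' b' hab hab' hsum
    refine (measure_union_le _ _).trans ?_
    rw [← hsum, ENNReal.ofReal_add (by linarith) (by linarith)]
    have h2 : inner ℝ e (nu i j) = 0 := by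
      rw [real_inner_comm, inner_nu, hje, hie]; ring
    have h3 : inner ℝ e (nu j i) = 0 := by
      rw [real_inner_comm, inner_nu, hje, hie]; ring
    exact add_le_add (arc_measure e _ he (nu_norm i j hij) h2 a b)
      (arc_measure e _ he (nu_norm j i hij.symm) h3 a' b')
  intro x hx
  refine sector_of_functional _ f hf ?_ ?_ ?_ x hx
  · rintro y ⟨hy1, hy2⟩ h0
    apply hy2
    rcases hcases y hy1 with ⟨s, hs, h1, h2⟩ | ⟨s, hs, h1, h2⟩
    · left
      rw [h2] at h0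
      rw [h1, hφ1, hsin_zero φ s hφ0 hφπ hs h0]
    · right
      rw [h2] at h0
      rw [h1, hψ1, hsin_zero ψ s hψ0 hψπ hs h0]
      rfl
  · refine (measure_mono ?_).trans (hmeas 0 φ 0 ψ hφ0.le hψ0.le (by linarith))
    rintro y ⟨⟨hy1, _⟩, hy3⟩
    rcases hcases y hy1 with ⟨s, hs, h1, h2⟩ | ⟨s, hs, h1, h2⟩
    · left
      rw [h2] at hy3
      exact ⟨s, ⟨hs.1, hsin_pos φ s hφ0 hφπ hs hy3⟩, h1.symm⟩
    · right
      rw [h2] at hy3
      exact ⟨s, ⟨hs.1, hsin_pos ψ s hψ0 hψπ hs hy3⟩, h1.symm⟩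
  · refine (measure_mono ?_).trans (hmeas φ Real.pi ψ Real.pi hφπ.le hψπ.le (by linarith))
    rintro y ⟨⟨hy1, _⟩, hy3⟩
    rcases hcases y hy1 with ⟨s, hs, h1, h2⟩ | ⟨s, hs, h1, h2⟩
    · left
      rw [h2] at hy3
      exact ⟨s, ⟨hsin_neg φ s hφ0 hφπ hs hy3, hs.2⟩, h1.symm⟩
    · right
      rw [h2] at hy3
      exact ⟨s, ⟨hsin_neg ψ s hψ0 hψπ hs hy3, hs.2⟩, h1.symm⟩

/-! ### Vertices -/

/-- unit vector along an edge -/
noncomputable def ee (i k : Fin 4) : E3 := (1 / (2 * √2)) • (V k - V i)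

lemma ee_norm (i k : Fin 4) (hik : i ≠ k) : ‖ee i k‖ = 1 := by
  have h1 : ‖V k - V i‖ ^ 2 = 8 := by
    rw [← real_inner_self_eq_norm_sq, inner_sub_left, inner_sub_right, inner_sub_right]
    simp only [inner_V]
    simp [hik, hik.symm]
    norm_num
  have h2 : ‖V k - V i‖ = 2 * √2 := by
    have h3 : (2 * √2) ^ 2 = 8 := by
      rw [mul_pow, Real.sq_sqrt (by norm_num)]; norm_num
    have h4 : (0 : ℝ) ≤ 2 * √2 := by positivity
    rw [← h3] at h1
    exact (pow_left_inj₀ (norm_nonneg _) h4 two_ne_zero).mp h1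
  unfold ee
  rw [norm_smul, h2, Real.norm_eq_abs, abs_of_pos (by positivity)]
  field_simp

/-- unit normal to `ee i k` in the face containing `V i`, `V k`, `V l` -/
noncomputable def mu (i k l : Fin 4) : E3 :=
  (1 / (2 * √6)) • ((2 : ℝ) • V l - V k - V i)

lemma mu_norm (i k l : Fin 4) (hik : i ≠ k) (hil : i ≠ l) (hkl : k ≠ l) : ‖mu i k l‖ = 1 := by
  have h1 : ‖(2 : ℝ) • V l - V k - V i‖ ^ 2 = 24 := by
    rw [← real_inner_self_eq_norm_sq]
    simp only [inner_sub_left, inner_sub_right, inner_smul_left, inner_smul_right, inner_V,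
      conj_trivial]
    simp [hik, hik.symm, hil, hil.symm, hkl, hkl.symm]
    norm_num
  have h2 : ‖(2 : ℝ) • V l - V k - V i‖ = 2 * √6 := by
    have h3 : (2 * √6) ^ 2 = 24 := by
      rw [mul_pow, Real.sq_sqrt (by norm_num)]; norm_num
    have h4 : (0 : ℝ) ≤ 2 * √6 := by positivity
    rw [← h3] at h1
    exact (pow_left_inj₀ (norm_nonneg _) h4 two_ne_zero).mp h1
  unfold mu
  rw [norm_smul, h2, Real.norm_eq_abs, abs_of_pos (by positivity)]
  field_simp

lemma corner_arc (i j k l : Fin 4) (hij : i ≠ j) (hik : i ≠ k) (hil : i ≠ l) (hjk : j ≠ k)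
    (hjl : j ≠ l) (hkl : k ≠ l) (hsum : V i + V j + V k + V l = 0) :
    μH[1] {y : E3 | ‖y‖ = 1 ∧ inner ℝ (V j) y = 0 ∧ 0 ≤ inner ℝ (V k) y ∧ 0 ≤ inner ℝ (V l) y}
      ≤ ENNReal.ofReal (Real.pi / 3) := by
  have hpi := Real.pi_pos
  have hje : inner ℝ (V j) (ee i k) = 0 := by
    unfold ee
    rw [inner_smul_right, inner_sub_right, inner_V, inner_V]; simp [hjk, hij.symm]
  have hjm : inner ℝ (V j) (mu i k l) = 0 := by
    unfold mu
    simp only [inner_sub_right, inner_smul_right, inner_V]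
    simp [hjk, hij.symm, hjl]
    norm_num
  have hem : inner ℝ (ee i k) (mu i k l) = 0 := by
    unfold mu ee
    simp only [inner_sub_left, inner_sub_right, inner_smul_left, inner_smul_right, inner_V,
      conj_trivial]
    simp [hik, hik.symm, hil, hkl]
    ring
  have hsub : {y : E3 | ‖y‖ = 1 ∧ inner ℝ (V j) y = 0 ∧ 0 ≤ inner ℝ (V k) y ∧
      0 ≤ inner ℝ (V l) y} ⊆ arc (ee i k) (mu i k l) '' Icc 0 (Real.pi / 3) := by
    rintro y ⟨hy1, hy2, hy3, hy4⟩
    have hs4 : inner ℝ (V i) y + inner ℝ (V j) y + inner ℝ (V k) y + inner ℝ (V l) y = 0 := by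
      rw [← inner_add_left, ← inner_add_left, ← inner_add_left, hsum, inner_zero_left]
    have h6 : (0 : ℝ) < √6 := by positivity
    have h2 : (0 : ℝ) < √2 := by positivity
    have h3 : (0 : ℝ) < √3 := by positivity
    have h63 : √6 = √2 * √3 := by rw [← Real.sqrt_mul (by norm_num)]; norm_num
    have h33 : √3 * √3 = 3 := Real.mul_self_sqrt (by norm_num)
    have hm : inner ℝ (mu i k l) y = 3 / (2 * √6) * inner ℝ (V l) y := by
      unfold mu
      simp only [inner_sub_left, inner_smul_left, conj_trivial]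
      have : inner ℝ (V i) y = - inner ℝ (V k) y - inner ℝ (V l) y := by linarith
      rw [this]; ring
    have he : inner ℝ (ee i k) y = (1 / (2 * √2)) * (2 * inner ℝ (V k) y + inner ℝ (V l) y) := by
      unfold ee
      simp only [inner_sub_left, inner_smul_left, conj_trivial]
      have : inner ℝ (V i) y = - inner ℝ (V k) y - inner ℝ (V l) y := by linarith
      rw [this]; ring
    obtain ⟨s, hs, h4, h5, h7⟩ := sector_param ((1 / √3) • V j) (ee i k) (mu i k l) y (norm_sV j)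
      (ee_norm i k hik) (mu_norm i k l hik hil hkl) (by rw [inner_smul_left, hje, mul_zero])
      (by rw [inner_smul_left, hjm, mul_zero]) hem (by rw [inner_smul_left, hy2, mul_zero]) hy1
      (by rw [hm]; positivity)
    refine ⟨s, ⟨hs.1, ?_⟩, h4.symm⟩
    by_contra hlt
    push Not at hlt
    have hpos : 0 < Real.sin (s - Real.pi / 3) :=
      Real.sin_pos_of_pos_of_lt_pi (by linarith) (by linarith [hs.2])
    rw [Real.sin_sub, Real.cos_pi_div_three, Real.sin_pi_div_three, h5, h7, hm, he, h63] at hpos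
    have hge : 0 ≤ (1 / (2 * √2)) * (2 * inner ℝ (V k) y + inner ℝ (V l) y) * (√3 / 2)
        - 3 / (2 * (√2 * √3)) * inner ℝ (V l) y * (1 / 2) := by
      have : (1 / (2 * √2)) * (2 * inner ℝ (V k) y + inner ℝ (V l) y) * (√3 / 2)
        - 3 / (2 * (√2 * √3)) * inner ℝ (V l) y * (1 / 2)
        = (√3 / (2 * √2)) * inner ℝ (V k) y := by
        field_simp
        linear_combination (inner ℝ (V l) y) * (h33)
      rw [this]; positivity
    linarith
  refine (measure_mono hsub).trans ?_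
  have := arc_measure (ee i k) (mu i k l) (ee_norm i k hik) (mu_norm i k l hik hil hkl) hem 0
    (Real.pi / 3)
  rwa [sub_zero] at this

lemma vertex_case {p : E3} (hp : p ∈ surface V) (i j k l : Fin 4) (hij : i ≠ j) (hik : i ≠ k)
    (hil : i ≠ l) (hjk : j ≠ k) (hjl : j ≠ l) (hkl : k ≠ l) (hsum : V i + V j + V k + V l = 0)
    (hm : ∀ m, g m p = 0 → m = j ∨ m = k ∨ m = l) (hgj : g j p = 0) (hgk : g k p = 0)
    (hgl : g l p = 0) (d₁ d₂ : E3) : SectorAnglesLE (surface V) p d₁ d₂ := by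
  intro x hx
  have c1 := corner_arc i j k l hij hik hil hjk hjl hkl hsum
  have c2 := corner_arc i k j l hik hij hil hjk.symm hkl hjl (by rw [← hsum]; abel)
  have c3 := corner_arc i l j k hil hij hik hjl.symm hkl.symm hjk (by rw [← hsum]; abel)
  have hpi := Real.pi_pos
  refine (measure_mono (connectedComponentIn_subset _ x)).trans ?_
  have hsub : dirs (surface V) p \ {d₁, d₂} ⊆
      ({y : E3 | ‖y‖ = 1 ∧ inner ℝ (V j) y = 0 ∧ 0 ≤ inner ℝ (V k) y ∧ 0 ≤ inner ℝ (V l) y} ∪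
      {y : E3 | ‖y‖ = 1 ∧ inner ℝ (V k) y = 0 ∧ 0 ≤ inner ℝ (V j) y ∧ 0 ≤ inner ℝ (V l) y}) ∪
      {y : E3 | ‖y‖ = 1 ∧ inner ℝ (V l) y = 0 ∧ 0 ≤ inner ℝ (V j) y ∧ 0 ≤ inner ℝ (V k) y} := by
    rintro y ⟨hy, _⟩
    rw [mem_dirs hp] at hy
    obtain ⟨h1, h2, m, hm1, hm2⟩ := hy
    have hj := h2 j hgj
    have hk := h2 k hgk
    have hl := h2 l hgl
    rcases hm m hm1 with hmm | hmm | hmm
    · rw [hmm] at hm2
      left; left; exact ⟨h1, hm2, hk, hl⟩
    · rw [hmm] at hm2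
      left; right; exact ⟨h1, hm2, hj, hl⟩
    · rw [hmm] at hm2
      right; exact ⟨h1, hm2, hj, hk⟩
  refine (measure_mono hsub).trans ((measure_union_le _ _).trans ?_)
  refine (add_le_add (measure_union_le _ _) le_rfl).trans ?_
  refine (add_le_add (add_le_add c1 c2) c3).trans ?_
  rw [← ENNReal.ofReal_add (by positivity) (by positivity),
    ← ENNReal.ofReal_add (by positivity) (by positivity)]
  apply ENNReal.ofReal_le_ofReal
  linarith


/-! ### The curve -/

/-- the corner points of the curve -/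
noncomputable def q : ZMod 8 → E3 :=
  ![!₂[1, 1, 1], !₂[-1, 1/2, -1/2], !₂[-1/3, 1/3, -1], !₂[1, 0, 0], !₂[-1/3, -1/3, 1],
    !₂[-1, -1/2, 1/2], !₂[1, -1, -1], !₂[-1, 0, 0]]

/-- barycentric coordinates (times four) of the corner points -/
noncomputable def G : ZMod 8 → Fin 4 → ℝ :=
  ![![4, 0, 0, 0], ![0, 0, 3, 1], ![0, 4/3, 8/3, 0], ![2, 2, 0, 0], ![4/3, 0, 0, 8/3],
    ![0, 0, 1, 3], ![0, 4, 0, 0], ![0, 0, 2, 2]]

/-- the face containing the segment from `q z` to `q (z+1)` -/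
def F : ZMod 8 → Fin 4 := ![1, 0, 3, 2, 1, 0, 0, 1]

lemma all8 {p : ZMod 8 → Prop} (h0 : p 0) (h1 : p 1) (h2 : p 2) (h3 : p 3) (h4 : p 4)
    (h5 : p 5) (h6 : p 6) (h7 : p 7) (z : ZMod 8) : p z := by
  have : z = 0 ∨ z = 1 ∨ z = 2 ∨ z = 3 ∨ z = 4 ∨ z = 5 ∨ z = 6 ∨ z = 7 := by
    revert z; decide
  rcases this with rfl | rfl | rfl | rfl | rfl | rfl | rfl | rfl <;> assumption

lemma q0 : q 0 = !₂[1, 1, 1] := rfl
lemma q1 : q 1 = !₂[-1, 1/2, -1/2] := rfl
lemma q2 : q 2 = !₂[-1/3, 1/3, -1] := rfl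
lemma q3 : q 3 = !₂[1, 0, 0] := rfl
lemma q4 : q 4 = !₂[-1/3, -1/3, 1] := rfl
lemma q5 : q 5 = !₂[-1, -1/2, 1/2] := rfl
lemma q6 : q 6 = !₂[1, -1, -1] := rfl
lemma q7 : q 7 = !₂[-1, 0, 0] := rfl

lemma G0 : G 0 = ![4, 0, 0, 0] := rfl
lemma G1 : G 1 = ![0, 0, 3, 1] := rfl
lemma G2 : G 2 = ![0, 4/3, 8/3, 0] := rfl
lemma G3 : G 3 = ![2, 2, 0, 0] := rfl
lemma G4 : G 4 = ![4/3, 0, 0, 8/3] := rfl
lemma G5 : G 5 = ![0, 0, 1, 3] := rfl
lemma G6 : G 6 = ![0, 4, 0, 0] := rfl
lemma G7 : G 7 = ![0, 0, 2, 2] := rfl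

lemma g_q (z : ZMod 8) (i : Fin 4) : g i (q z) = G z i := by
  revert z
  apply all8 <;> fin_cases i <;>
    simp [g, V, q0, q1, q2, q3, q4, q5, q6, q7, G0, G1, G2, G3, G4, G5, G6, G7,
      PiLp.inner_apply, EuclideanSpace.norm_sq_eq, Fin.sum_univ_three] <;> norm_num


/-- the closed polygonal curve with period `8` -/
noncomputable def γ (t : ℝ) : E3 :=
  q (⌊t⌋ : ℤ) + Int.fract t • (q ((⌊t⌋ : ℤ) + 1) - q (⌊t⌋ : ℤ))

lemma γ_on (n : ℤ) (s : ℝ) (hs : s ∈ Icc (n : ℝ) (n + 1)) :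
    γ s = q n + (s - n) • (q (n + 1) - q n) := by
  rcases hs.2.lt_or_eq with h | h
  · have hf : ⌊s⌋ = n := Int.floor_eq_iff.mpr ⟨hs.1, h⟩
    unfold γ Int.fract
    rw [hf]
  · have hf : ⌊s⌋ = n + 1 := by
      rw [h]
      have : ((n : ℝ) + 1) = ((n + 1 : ℤ) : ℝ) := by push_cast; ring
      rw [this, Int.floor_intCast]
    unfold γ Int.fract
    rw [hf, h]
    push_cast
    simp

lemma γ_periodic : Function.Periodic γ 8 := by
  intro t
  unfold γ
  have h1 : ⌊t + 8⌋ = ⌊t⌋ + 8 := by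
    simp
  have h2 : Int.fract (t + 8) = Int.fract t := by
    simp
  rw [h1, h2]
  have h3 : ((⌊t⌋ + 8 : ℤ) : ZMod 8) = (⌊t⌋ : ℤ) := by
    push_cast
    have : (8 : ZMod 8) = 0 := by decide
    rw [this, add_zero]
  rw [h3]

lemma γ_int (n : ℤ) : γ n = q n := by
  rw [γ_on n n ⟨le_refl _, by linarith⟩]; simp

lemma γ_right (t : ℝ) : ∀ᶠ s in 𝓝[>] t,
    γ s = γ t + (s - t) • (q ((⌊t⌋ : ℤ) + 1) - q (⌊t⌋ : ℤ)) := by
  have h1 : t < ⌊t⌋ + 1 := Int.lt_floor_add_one t
  filter_upwards [Ioo_mem_nhdsGT h1] with s hs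
  have h2 := Int.floor_le t
  rw [γ_on ⌊t⌋ s ⟨by linarith [hs.1], hs.2.le⟩, γ_on ⌊t⌋ t ⟨h2, h1.le⟩]
  module

lemma γ_left (t : ℝ) (n : ℤ) (hn : (n : ℝ) < t) (hn' : t ≤ n + 1) : ∀ᶠ s in 𝓝[<] t,
    γ s = γ t + (s - t) • (q (n + 1) - q n) := by
  filter_upwards [Ioo_mem_nhdsLT hn] with s hs
  rw [γ_on n s ⟨hs.1.le, by linarith [hs.2]⟩, γ_on n t ⟨hn.le, hn'⟩]
  module

lemma exists_left (t : ℝ) : ∃ n : ℤ, (n : ℝ) < t ∧ t ≤ n + 1 := by
  refine ⟨⌈t⌉ - 1, ?_, ?_⟩
  · push_cast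
    linarith [Int.ceil_lt_add_one t]
  · push_cast
    linarith [Int.le_ceil t]

lemma γ_cont : Continuous γ := by
  rw [continuous_iff_continuousAt]
  intro t
  rw [continuousAt_iff_continuous_left'_right']
  obtain ⟨n, hn, hn'⟩ := exists_left t
  have key : ∀ (w : E3) (l : Filter ℝ), l ≤ 𝓝 t → (∀ᶠ s in l, γ s = γ t + (s - t) • w) →
      Tendsto γ l (𝓝 (γ t)) := by
    intro w l hl h
    have h1 : Tendsto (fun s : ℝ => γ t + (s - t) • w) (𝓝 t) (𝓝 (γ t + (t - t) • w)) := by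
      apply Continuous.tendsto; fun_prop
    rw [sub_self, zero_smul, add_zero] at h1
    exact (tendsto_congr' h).mpr (h1.mono_left hl)
  exact ⟨key _ _ nhdsWithin_le_nhds (γ_left t n hn hn'),
    key _ _ nhdsWithin_le_nhds (γ_right t)⟩

lemma forward_dir (t : ℝ) : HasForwardDir γ t
    (‖q ((⌊t⌋ : ℤ) + 1) - q (⌊t⌋ : ℤ)‖⁻¹ • (q ((⌊t⌋ : ℤ) + 1) - q (⌊t⌋ : ℤ))) := by
  unfold HasForwardDir
  apply tendsto_const_nhds.congr'
  filter_upwards [γ_right t, self_mem_nhdsWithin] with s hs hs'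
  rw [hs, add_sub_cancel_left, norm_smul, Real.norm_eq_abs,
    abs_of_pos (by rw [mem_Ioi] at hs'; linarith), smul_smul]
  congr 1
  rw [mem_Ioi] at hs'
  have : s - t ≠ 0 := by linarith
  rw [mul_inv]
  field_simp

lemma backward_dir (t : ℝ) (n : ℤ) (hn : (n : ℝ) < t) (hn' : t ≤ n + 1) : HasBackwardDir γ t
    (‖q (n + 1) - q n‖⁻¹ • (q n - q (n + 1))) := by
  unfold HasBackwardDir
  apply tendsto_const_nhds.congr'
  filter_upwards [γ_left t n hn hn', self_mem_nhdsWithin] with s hs hs'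
  rw [mem_Iio] at hs'
  rw [hs, add_sub_cancel_left, norm_smul, Real.norm_eq_abs,
    abs_of_neg (by linarith), smul_smul]
  have : s - t ≠ 0 := by intro h; linarith
  have h2 : (-(s - t) * ‖q (n + 1) - q n‖)⁻¹ * (s - t) = -‖q (n + 1) - q n‖⁻¹ := by
    rw [mul_inv, inv_neg]
    field_simp
  rw [h2, neg_smul, ← smul_neg, neg_sub]

/-! ### Injectivity and vertices on the curve -/

lemma g_comb (j : Fin 4) (x y : E3) (f : ℝ) :
    g j (x + f • (y - x)) = (1 - f) * g j x + f * g j y := by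
  unfold g
  rw [inner_add_right, inner_smul_right, inner_sub_right]
  ring

lemma g_γ (j : Fin 4) (t : ℝ) :
    g j (γ t) = (1 - Int.fract t) * G (⌊t⌋ : ℤ) j + Int.fract t * G ((⌊t⌋ : ℤ) + 1) j := by
  unfold γ
  rw [g_comb, g_q, g_q]

lemma G_inj (m n : ZMod 8) (f h : ℝ) (hf0 : 0 ≤ f) (hf1 : f < 1) (hh0 : 0 ≤ h) (hh1 : h < 1)
    (H : ∀ j, (1 - f) * G m j + f * G (m + 1) j = (1 - h) * G n j + h * G (n + 1) j) :
    m = n ∧ f = h := by
  have H0 := H 0
  have H1 := H 1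
  have H2 := H 2
  have H3 := H 3
  clear H
  revert m n
  apply all8 <;> apply all8 <;> intro H0 H1 H2 H3 <;>
  simp [G0, G1, G2, G3, G4, G5, G6, G7, show (1 + 1 : ZMod 8) = 2 from rfl,
    show (2 + 1 : ZMod 8) = 3 from rfl, show (3 + 1 : ZMod 8) = 4 from rfl,
    show (4 + 1 : ZMod 8) = 5 from rfl, show (5 + 1 : ZMod 8) = 6 from rfl,
    show (6 + 1 : ZMod 8) = 7 from rfl, show (7 + 1 : ZMod 8) = 0 from rfl] at H0 H1 H2 H3 <;>
  first
  | exact ⟨rfl, by linarith⟩
  | (exfalso; linarith)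


/-! ### The quasigeodesic condition -/

lemma G_nonneg (z : ZMod 8) (i : Fin 4) : 0 ≤ G z i := by
  revert z
  apply all8 <;> fin_cases i <;> simp [G0, G1, G2, G3, G4, G5, G6, G7]
  all_goals norm_num

lemma G_face (z : ZMod 8) : G z (F z) = 0 ∧ G (z + 1) (F z) = 0 := by
  revert z
  apply all8 <;>
  simp [F, G0, G1, G2, G3, G4, G5, G6, G7, show (1 + 1 : ZMod 8) = 2 from rfl,
    show (2 + 1 : ZMod 8) = 3 from rfl, show (3 + 1 : ZMod 8) = 4 from rfl,
    show (4 + 1 : ZMod 8) = 5 from rfl, show (5 + 1 : ZMod 8) = 6 from rfl,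
    show (6 + 1 : ZMod 8) = 7 from rfl, show (7 + 1 : ZMod 8) = 0 from rfl]


lemma F0 : F 0 = 1 := rfl
lemma F1 : F 1 = 0 := rfl
lemma F2 : F 2 = 3 := rfl
lemma F3 : F 3 = 2 := rfl
lemma F4 : F 4 = 1 := rfl
lemma F5 : F 5 = 0 := rfl
lemma F6 : F 6 = 0 := rfl
lemma F7 : F 7 = 1 := rfl

lemma G_face_unique (z : ZMod 8) (i : Fin 4) (h1 : G z i = 0) (h2 : G (z + 1) i = 0) :
    i = F z := by
  revert z
  apply all8 <;> fin_cases i <;>
  simp [F0, F1, F2, F3, F4, F5, F6, F7, G0, G1, G2, G3, G4, G5, G6, G7,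
    show (1 + 1 : ZMod 8) = 2 from rfl,
    show (2 + 1 : ZMod 8) = 3 from rfl, show (3 + 1 : ZMod 8) = 4 from rfl,
    show (4 + 1 : ZMod 8) = 5 from rfl, show (5 + 1 : ZMod 8) = 6 from rfl,
    show (6 + 1 : ZMod 8) = 7 from rfl, show (7 + 1 : ZMod 8) = 0 from rfl]

/-- lengths of the segments -/
noncomputable def NN : ZMod 8 → ℝ :=
  ![√26 / 2, √26 / 6, √26 / 3, √26 / 3, √26 / 6, √26 / 2, √6, √6]

lemma NN0 : NN 0 = √26 / 2 := rfl
lemma NN1 : NN 1 = √26 / 6 := rfl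
lemma NN2 : NN 2 = √26 / 3 := rfl
lemma NN3 : NN 3 = √26 / 3 := rfl
lemma NN4 : NN 4 = √26 / 6 := rfl
lemma NN5 : NN 5 = √26 / 2 := rfl
lemma NN6 : NN 6 = √6 := rfl
lemma NN7 : NN 7 = √6 := rfl

lemma NN_pos (z : ZMod 8) : 0 < NN z := by
  revert z
  apply all8 <;> simp [NN0, NN1, NN2, NN3, NN4, NN5, NN6, NN7]

lemma norm_seg (z : ZMod 8) : ‖q (z + 1) - q z‖ = NN z := by
  have key : ‖q (z + 1) - q z‖ ^ 2 = NN z ^ 2 := by
    revert z
    apply all8 <;>
      simp [NN0, NN1, NN2, NN3, NN4, NN5, NN6, NN7, q0, q1, q2, q3, q4, q5, q6, q7,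
        EuclideanSpace.norm_sq_eq, Fin.sum_univ_three, div_pow,
        show (1 + 1 : ZMod 8) = 2 from rfl,
        show (2 + 1 : ZMod 8) = 3 from rfl, show (3 + 1 : ZMod 8) = 4 from rfl,
        show (4 + 1 : ZMod 8) = 5 from rfl, show (5 + 1 : ZMod 8) = 6 from rfl,
        show (6 + 1 : ZMod 8) = 7 from rfl, show (7 + 1 : ZMod 8) = 0 from rfl] <;> norm_num
  exact (pow_left_inj₀ (norm_nonneg _) (NN_pos z).le two_ne_zero).mp key

lemma seg_ne (z : ZMod 8) : ‖q (z + 1) - q z‖ ≠ 0 := by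
  rw [norm_seg]; exact (NN_pos z).ne'

lemma inner_V_q (i : Fin 4) (z z' : ZMod 8) : inner ℝ (V i) (q z' - q z) = G z' i - G z i := by
  rw [inner_sub_right]
  have h1 := g_q z i
  have h2 := g_q z' i
  unfold g at h1 h2
  linarith

lemma unit_fwd (z : ZMod 8) : ‖(‖q (z + 1) - q z‖⁻¹ • (q (z + 1) - q z))‖ = 1 := by
  rw [norm_smul, norm_inv, norm_norm, inv_mul_cancel₀ (seg_ne z)]

lemma unit_bwd (z : ZMod 8) : ‖(‖q (z + 1) - q z‖⁻¹ • (q z - q (z + 1)))‖ = 1 := by
  rw [norm_smul, norm_inv, norm_norm, norm_sub_rev (q z), inv_mul_cancel₀ (seg_ne z)]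

lemma γ_surface (t : ℝ) : γ t ∈ surface V := by
  rw [surface_eq]
  have h0 := Int.fract_nonneg t
  have h1 := (Int.fract_lt_one t).le
  refine ⟨fun i => ?_, F (⌊t⌋ : ℤ), ?_⟩
  · rw [g_γ]
    have := G_nonneg (⌊t⌋ : ℤ) i
    have := G_nonneg ((⌊t⌋ : ℤ) + 1) i
    have : 0 ≤ 1 - Int.fract t := by linarith
    positivity
  · rw [g_γ, (G_face _).1, (G_face _).2]; ring

lemma fwd_mem (t : ℝ) : (‖q ((⌊t⌋ : ℤ) + 1) - q (⌊t⌋ : ℤ)‖⁻¹ • (q ((⌊t⌋ : ℤ) + 1) - q (⌊t⌋ : ℤ)))
    ∈ dirs (surface V) (γ t) := by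
  rw [mem_dirs (γ_surface t)]
  refine ⟨unit_fwd _, fun i hi => ?_, F (⌊t⌋ : ℤ), ?_, ?_⟩
  · rw [g_γ] at hi
    rw [inner_smul_right, inner_V_q]
    have h0 := Int.fract_nonneg t
    have h1 := Int.fract_lt_one t
    have h2 := G_nonneg (⌊t⌋ : ℤ) i
    have h3 := G_nonneg ((⌊t⌋ : ℤ) + 1) i
    have h4 : 0 < 1 - Int.fract t := by linarith
    have h5 : G (⌊t⌋ : ℤ) i = 0 := by
      have : (1 - Int.fract t) * G (⌊t⌋ : ℤ) i = 0 := by
        have := mul_nonneg h4.le h2
        have := mul_nonneg h0 h3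
        linarith
      rcases mul_eq_zero.mp this with h | h
      · linarith
      · exact h
    rw [h5, sub_zero]
    positivity
  · rw [g_γ, (G_face _).1, (G_face _).2]; ring
  · rw [inner_smul_right, inner_V_q, (G_face _).1, (G_face _).2]; ring

lemma g_γ' (j : Fin 4) (t : ℝ) (n : ℤ) (hn : (n : ℝ) < t) (hn' : t ≤ n + 1) :
    g j (γ t) = (1 - (t - n)) * G n j + (t - n) * G (n + 1) j := by
  rw [γ_on n t ⟨hn.le, hn'⟩, g_comb, g_q, g_q]

lemma bwd_mem (t : ℝ) (n : ℤ) (hn : (n : ℝ) < t) (hn' : t ≤ n + 1) :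
    (‖q (n + 1) - q n‖⁻¹ • (q n - q (n + 1))) ∈ dirs (surface V) (γ t) := by
  rw [mem_dirs (γ_surface t)]
  refine ⟨unit_bwd _, fun i hi => ?_, F n, ?_, ?_⟩
  · rw [g_γ' i t n hn hn'] at hi
    rw [inner_smul_right, inner_V_q]
    have h2 := G_nonneg n i
    have h3 := G_nonneg (n + 1) i
    have h4 : 0 < t - n := by linarith
    have h0 : 0 ≤ 1 - (t - n) := by linarith
    have h5 : G (n + 1) i = 0 := by
      have : (t - n) * G (n + 1) i = 0 := by
        have := mul_nonneg h4.le h3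
        have := mul_nonneg h0 h2
        linarith
      rcases mul_eq_zero.mp this with h | h
      · linarith
      · exact h
    rw [h5, sub_zero]
    positivity
  · rw [g_γ' _ t n hn hn', (G_face _).1, (G_face _).2]; ring
  · rw [inner_smul_right, inner_V_q, (G_face _).1, (G_face _).2]; ring

lemma inner_ee (k l : Fin 4) (y : E3) :
    inner ℝ (ee k l) y = (1 / (2 * √2)) * (inner ℝ (V l) y - inner ℝ (V k) y) := by
  unfold ee
  rw [inner_smul_left, inner_sub_left, conj_trivial]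

lemma corner_edge (y z : ZMod 8) (hy : y + 1 = z) (i j k l : Fin 4) (hij : i ≠ j) (hik : i ≠ k)
    (hil : i ≠ l) (hjk : j ≠ k) (hjl : j ≠ l) (hkl : k ≠ l) (hm : ∀ m, G z m = 0 → m = i ∨ m = j)
    (hi0 : G y i = 0) (hi1 : G z i = 0) (hj1 : G z j = 0) (hj2 : G (z + 1) j = 0)
    (hj0 : 0 < G y j) (hi2 : 0 < G (z + 1) i)
    (hst : (NN y)⁻¹ * ((G y l - G z l) - (G y k - G z k))
      + (NN z)⁻¹ * ((G (z + 1) l - G z l) - (G (z + 1) k - G z k)) = 0)
    (hp : q z ∈ surface V) :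
    SectorAnglesLE (surface V) (q z) (‖q (y + 1) - q y‖⁻¹ • (q y - q (y + 1)))
      (‖q (z + 1) - q z‖⁻¹ • (q (z + 1) - q z)) := by
  refine edge_case hp i j hij ?_ ?_ ?_ (ee k l) (ee_norm k l hkl) ?_ ?_ _ _ (unit_bwd y)
    (unit_fwd z) ?_ ?_ ?_ ?_ ?_
  · intro m hm'
    rw [g_q] at hm'
    exact hm m hm'
  · rw [g_q, hi1]
  · rw [g_q, hj1]
  · rw [real_inner_comm, inner_ee, inner_V, inner_V]; simp [hik.symm, hil.symm]
  · rw [real_inner_comm, inner_ee, inner_V, inner_V]; simp [hjk.symm, hjl.symm]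
  · rw [hy, inner_smul_right, inner_V_q, hi0, hi1]; ring
  · rw [norm_seg, inner_smul_right, inner_V_q, hy, hj1, sub_zero]
    have := NN_pos y
    positivity
  · rw [inner_smul_right, inner_V_q, hj2, hj1]; ring
  · rw [norm_seg, inner_smul_right, inner_V_q, hi1, sub_zero]
    have := NN_pos z
    positivity
  · rw [inner_smul_right, inner_smul_right, norm_seg, norm_seg, inner_ee, inner_ee, inner_V_q,
      inner_V_q, inner_V_q, inner_V_q, hy]
    linear_combination (1 / (2 * √2)) * hst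

lemma q_surface (z : ZMod 8) : q z ∈ surface V := by
  rw [surface_eq]
  exact ⟨fun i => by rw [g_q]; exact G_nonneg z i, F z, by rw [g_q]; exact (G_face z).1⟩


lemma corner_edge_all (y z : ZMod 8) (hy : y + 1 = z) (h0 : z ≠ 0) (h6 : z ≠ 6) :
    SectorAnglesLE (surface V) (q z) (‖q (y + 1) - q y‖⁻¹ • (q y - q (y + 1)))
      (‖q (z + 1) - q z‖⁻¹ • (q (z + 1) - q z)) := by
  have h26 : √26 ≠ 0 := by positivity
  have h66 : √6 ≠ 0 := by positivity
  have hz : z = 0 ∨ z = 1 ∨ z = 2 ∨ z = 3 ∨ z = 4 ∨ z = 5 ∨ z = 6 ∨ z = 7 := by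
    clear h0 h6 hy
    revert z; decide
  have hy' : y = z - 1 := by rw [← hy]; ring
  have e1 : (1 + 1 : ZMod 8) = 2 := rfl
  have e2 : (2 + 1 : ZMod 8) = 3 := rfl
  have e3 : (3 + 1 : ZMod 8) = 4 := rfl
  have e4 : (4 + 1 : ZMod 8) = 5 := rfl
  have e5 : (5 + 1 : ZMod 8) = 6 := rfl
  have e6 : (6 + 1 : ZMod 8) = 7 := rfl
  have e7 : (7 + 1 : ZMod 8) = 0 := rfl
  rcases hz with rfl | rfl | rfl | rfl | rfl | rfl | rfl | rfl
  · exact absurd rfl h0
  · obtain rfl : y = 0 := by rw [hy']; rfl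
    refine corner_edge 0 1 hy 1 0 2 3 (by decide) (by decide) (by decide) (by decide) (by decide)
      (by decide) ?_ ?_ ?_ ?_ ?_ ?_ ?_ ?_ (q_surface _)
    · intro m hm; fin_cases m <;> simp [G1] at hm ⊢
    all_goals simp [G0, G1, G2, NN0, NN1, e1]
    field_simp; norm_num
  · obtain rfl : y = 1 := by rw [hy']; rfl
    refine corner_edge 1 2 hy 0 3 1 2 (by decide) (by decide) (by decide) (by decide) (by decide)
      (by decide) ?_ ?_ ?_ ?_ ?_ ?_ ?_ ?_ (q_surface _)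
    · intro m hm; fin_cases m <;> simp [G2] at hm ⊢
    all_goals simp [G1, G2, G3, NN1, NN2, e2]
    field_simp; norm_num
  · obtain rfl : y = 2 := by rw [hy']; rfl
    refine corner_edge 2 3 hy 3 2 0 1 (by decide) (by decide) (by decide) (by decide) (by decide)
      (by decide) ?_ ?_ ?_ ?_ ?_ ?_ ?_ ?_ (q_surface _)
    · intro m hm; fin_cases m <;> simp [G3] at hm ⊢
    all_goals simp [G2, G3, G4, NN2, NN3, e3]
    field_simp; norm_num
  · obtain rfl : y = 3 := by rw [hy']; rfl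
    refine corner_edge 3 4 hy 2 1 0 3 (by decide) (by decide) (by decide) (by decide) (by decide)
      (by decide) ?_ ?_ ?_ ?_ ?_ ?_ ?_ ?_ (q_surface _)
    · intro m hm; fin_cases m <;> simp [G4] at hm ⊢
    all_goals simp [G3, G4, G5, NN3, NN4, e4]
    field_simp; norm_num
  · obtain rfl : y = 4 := by rw [hy']; rfl
    refine corner_edge 4 5 hy 1 0 2 3 (by decide) (by decide) (by decide) (by decide) (by decide)
      (by decide) ?_ ?_ ?_ ?_ ?_ ?_ ?_ ?_ (q_surface _)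
    · intro m hm; fin_cases m <;> simp [G5] at hm ⊢
    all_goals simp [G4, G5, G6, NN4, NN5, e5]
    field_simp; norm_num
  · exact absurd rfl h6
  · obtain rfl : y = 6 := by rw [hy']; rfl
    refine corner_edge 6 7 hy 0 1 2 3 (by decide) (by decide) (by decide) (by decide) (by decide)
      (by decide) ?_ ?_ ?_ ?_ ?_ ?_ ?_ ?_ (q_surface _)
    · intro m hm; fin_cases m <;> simp [G7] at hm ⊢
    all_goals simp [G6, G7, G0, NN6, NN7, e7]

lemma corner (y z : ZMod 8) (hy : y + 1 = z) :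
    SectorAnglesLE (surface V) (q z) (‖q (y + 1) - q y‖⁻¹ • (q y - q (y + 1)))
      (‖q (z + 1) - q z‖⁻¹ • (q (z + 1) - q z)) := by
  by_cases h0 : z = 0
  · subst h0
    refine vertex_case (q_surface 0) 0 1 2 3 (by decide) (by decide) (by decide) (by decide)
      (by decide) (by decide) sum_V ?_ ?_ ?_ ?_ _ _
    · intro m hm
      rw [g_q] at hm
      fin_cases m <;> simp [G0] at hm ⊢
    · rw [g_q]; simp [G0]
    · rw [g_q]; simp [G0]
    · rw [g_q]; simp [G0]
  by_cases h6 : z = 6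
  · subst h6
    refine vertex_case (q_surface 6) 1 0 2 3 (by decide) (by decide) (by decide) (by decide)
      (by decide) (by decide) (by rw [← sum_V]; abel) ?_ ?_ ?_ ?_ _ _
    · intro m hm
      rw [g_q] at hm
      fin_cases m <;> simp [G6] at hm ⊢
    · rw [g_q]; simp [G6]
    · rw [g_q]; simp [G6]
    · rw [g_q]; simp [G6]
  exact corner_edge_all y z hy h0 h6

lemma quasi (t : ℝ) : ∃ d₁ ∈ dirs (surface V) (γ t), ∃ d₂ ∈ dirs (surface V) (γ t),
    HasBackwardDir γ t d₁ ∧ HasForwardDir γ t d₂ ∧ SectorAnglesLE (surface V) (γ t) d₁ d₂ := by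
  obtain ⟨n, hn, hn'⟩ := exists_left t
  refine ⟨_, bwd_mem t n hn hn', _, fwd_mem t, backward_dir t n hn hn', forward_dir t, ?_⟩
  rcases hn'.lt_or_eq with h | h
  · have hfl : ⌊t⌋ = n := Int.floor_eq_iff.mpr ⟨hn.le, h⟩
    rw [hfl]
    have h1 : ‖q (n + 1) - q n‖⁻¹ • (q n - q (n + 1)) =
        -(‖q (n + 1) - q n‖⁻¹ • (q (n + 1) - q n)) := by
      rw [← smul_neg, neg_sub]
    rw [h1]
    refine face_case (γ_surface t) (F n) ?_ _ (unit_fwd _) ?_
    · intro j hj
      rw [g_γ' j t n hn hn'] at hj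
      have h2 := G_nonneg n j
      have h3 := G_nonneg (n + 1) j
      have h4 : 0 < t - n := by linarith
      have h5 : 0 < 1 - (t - n) := by linarith
      have h6 := mul_nonneg h4.le h3
      have h7 := mul_nonneg h5.le h2
      have h8 : (t - n) * G (n + 1) j = 0 := by linarith
      have h9 : (1 - (t - n)) * G n j = 0 := by linarith
      apply G_face_unique n j
      · rcases mul_eq_zero.mp h9 with h | h
        · linarith
        · exact h
      · rcases mul_eq_zero.mp h8 with h | h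
        · linarith
        · exact h
    · rw [inner_smul_right, inner_V_q, (G_face _).1, (G_face _).2]; ring
  · have hfl : ⌊t⌋ = n + 1 := by
      rw [h]
      have : ((n : ℝ) + 1) = ((n + 1 : ℤ) : ℝ) := by push_cast; ring
      rw [this, Int.floor_intCast]
    have hγ : γ t = q ((n : ZMod 8) + 1) := by
      rw [γ_on n t ⟨hn.le, hn'⟩, h]
      simp
    rw [hγ, hfl]
    push_cast
    exact corner n (n + 1) rfl

lemma affInd : AffineIndependent ℝ V := by
  rw [affineIndependent_iff]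
  intro s w hw0 hw j hj
  have h1 : inner ℝ (V j) (∑ e ∈ s, w e • V e) = 0 := by rw [hw, inner_zero_right]
  rw [inner_sum] at h1
  simp only [inner_smul_right, inner_V] at h1
  have h2 : ∑ i ∈ s, w i * (if j = i then (3 : ℝ) else -1)
      = ∑ i ∈ s, (4 * (if j = i then w i else 0) - w i) := by
    apply Finset.sum_congr rfl
    intro i _
    split_ifs <;> ring
  rw [h2, Finset.sum_sub_distrib, ← Finset.mul_sum, hw0, Finset.sum_ite_eq, if_pos hj] at h1
  linarith

lemma γ_inj : InjOn γ (Ico 0 8) := by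
  intro s hs t ht hst
  have H : ∀ j, (1 - Int.fract s) * G (⌊s⌋ : ℤ) j + Int.fract s * G ((⌊s⌋ : ℤ) + 1) j
      = (1 - Int.fract t) * G (⌊t⌋ : ℤ) j + Int.fract t * G ((⌊t⌋ : ℤ) + 1) j := by
    intro j
    rw [← g_γ, ← g_γ, hst]
  obtain ⟨h1, h2⟩ := G_inj _ _ _ _ (Int.fract_nonneg s) (Int.fract_lt_one s)
    (Int.fract_nonneg t) (Int.fract_lt_one t) H
  have hs0 : 0 ≤ ⌊s⌋ := Int.floor_nonneg.mpr hs.1
  have ht0 : 0 ≤ ⌊t⌋ := Int.floor_nonneg.mpr ht.1
  have hs8 : ⌊s⌋ < 8 := Int.floor_lt.mpr (by exact_mod_cast hs.2)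
  have ht8 : ⌊t⌋ < 8 := Int.floor_lt.mpr (by exact_mod_cast ht.2)
  have h3 : ⌊s⌋ = ⌊t⌋ := by
    have := (ZMod.intCast_eq_intCast_iff' _ _ 8).mp h1
    push_cast at this
    rwa [Int.emod_eq_of_lt hs0 hs8, Int.emod_eq_of_lt ht0 ht8] at this
  rw [← Int.floor_add_fract s, ← Int.floor_add_fract t, h2, h3]

lemma g_V (i j : Fin 4) : g i (V j) = if i = j then 4 else 0 := by
  unfold g
  rw [inner_V]
  split_ifs <;> norm_num

lemma G_le (z : ZMod 8) : G z 2 ≤ 3 ∧ G z 3 ≤ 3 := by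
  revert z
  apply all8 <;> simp [G0, G1, G2, G3, G4, G5, G6, G7] <;> norm_num

lemma vertex_on (w : Fin 4) : V w ∈ range γ ↔ w = 0 ∨ w = 1 := by
  constructor
  · rintro ⟨t, ht⟩
    have h0 := Int.fract_nonneg t
    have h1 := Int.fract_lt_one t
    fin_cases w
    · simp
    · simp
    · exfalso
      have h := g_γ 2 t
      rw [ht, g_V] at h
      simp only [Fin.reduceFinMk, if_true] at h
      have h2 := (G_le (⌊t⌋ : ℤ)).1
      have h3 := (G_le ((⌊t⌋ : ℤ) + 1)).1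
      nlinarith
    · exfalso
      have h := g_γ 3 t
      rw [ht, g_V] at h
      simp only [Fin.reduceFinMk, if_true] at h
      have h2 := (G_le (⌊t⌋ : ℤ)).2
      have h3 := (G_le ((⌊t⌋ : ℤ) + 1)).2
      nlinarith
  · rintro (rfl | rfl)
    · exact ⟨((0 : ℤ) : ℝ), by rw [γ_int]; simp [q0, V]⟩
    · exact ⟨((6 : ℤ) : ℝ), by rw [γ_int]; simp [q6, V]⟩

lemma not_edge (z : ZMod 8) (f : ℝ) (hf0 : 0 ≤ f) (hf1 : f < 1)
    (H : ∀ j, (1 - f) * G z j + f * G (z + 1) j = ![3, 1, 0, 0] j) : False := by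
  have H0 := H 0
  have H1 := H 1
  have H2 := H 2
  have H3 := H 3
  clear H
  revert z
  apply all8 <;> intro H0 H1 H2 H3 <;>
  simp [G0, G1, G2, G3, G4, G5, G6, G7, show (1 + 1 : ZMod 8) = 2 from rfl,
    show (2 + 1 : ZMod 8) = 3 from rfl, show (3 + 1 : ZMod 8) = 4 from rfl,
    show (4 + 1 : ZMod 8) = 5 from rfl, show (5 + 1 : ZMod 8) = 6 from rfl,
    show (6 + 1 : ZMod 8) = 7 from rfl, show (7 + 1 : ZMod 8) = 0 from rfl] at H0 H1 H2 H3 <;>
  linarith

lemma edge_not_subset : ¬ segment ℝ (V 0) (V 1) ⊆ range γ := by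
  intro h
  have hx : (3 / 4 : ℝ) • V 0 + (1 / 4 : ℝ) • V 1 ∈ segment ℝ (V 0) (V 1) :=
    ⟨3 / 4, 1 / 4, by norm_num, by norm_num, by norm_num, rfl⟩
  obtain ⟨t, ht⟩ := h hx
  apply not_edge (⌊t⌋ : ℤ) (Int.fract t) (Int.fract_nonneg t) (Int.fract_lt_one t)
  intro j
  rw [← g_γ, ht]
  unfold g
  rw [inner_add_right, inner_smul_right, inner_smul_right, inner_V, inner_V]
  fin_cases j <;> simp <;> norm_num

/-- It is false that on every tetrahedron every simple closed quasigeodesic through exactly two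
vertices contains the edge joining them. -/
theorem result :
    ¬ ∀ P : Fin 4 → E3, AffineIndependent ℝ P →
      ∀ (L : ℝ) (γ : ℝ → E3), IsSimpleClosedQuasigeodesic P L γ →
        ∀ i j : Fin 4, i ≠ j → (∀ w, P w ∈ range γ ↔ w = i ∨ w = j) →
          segment ℝ (P i) (P j) ⊆ range γ := by
  intro h
  exact edge_not_subset (h V affInd 8 γ
    ⟨by norm_num, γ_cont, γ_periodic, γ_inj, γ_surface, quasi⟩ 0 1 (by decide) vertex_on)

end Pool.Agent.Results.MP_a30120_gt.NonEdgeLoop
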